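import Pool.Agent.W918.DP.BasicC

/-! DP-BDD: bounded cycles. -/

set_option autoImplicit false

namespace Pool.Agent.W918.DP

open Pool.Agent.W710.DP Finsupp

theorem hw_length (N : ℕ) : (hw N).length = N := by simp [hw]

theorem hw_getD (N i : ℕ) (hi : i < N) : (hw N).getD i 0 = hy i := by
  simp [hw, List.getD_eq_getElem?_getD, hi]

theorem hw_map_getD (N i : ℕ) (hi : i < N) (D : Cfg → Cfg) :
    ((hw N).map (fun h p => h (D p))).getD i 0 = fun p => hy i (D p) := by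
  simp [hw, List.getD_eq_getElem?_getD, hi]

theorem Close.mono {N : ℕ} {ε ε' : ℝ} {ζ η : Cfg} (h : Close N ε ζ η) (hε : ε ≤ ε') :
    Close N ε' ζ η := ⟨fun i hi => (h.1 i hi).trans hε, fun i hi => (h.2 i hi).trans hε⟩

/-- if one point of a close tuple has a large difference, the sign is constant -/
theorem hy_const' {i : ℕ} (p q : Cfg) {δ : ℝ} (h1 : |p.1 i - q.1 i| ≤ δ)
    (h2 : |p.1 (i + 1) - q.1 (i + 1)| ≤ δ)
    (hp : 2 * δ < |p.1 (i + 1) - p.1 i|) : hy i q = hy i p := by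
  have hδ : 0 ≤ δ := (abs_nonneg _).trans h1
  have h1 := abs_le.1 h1
  have h2 := abs_le.1 h2
  unfold hy
  rcases lt_abs.1 hp with h | h
  · rw [if_pos (by linarith), if_pos (by linarith)]
  · rw [if_neg (by linarith), if_neg (by linarith)]

theorem hy_const {N i : ℕ} (hi : i < N) (p q : Cfg) {δ : ℝ} (hpq : Close N δ p q)
    (hp : 2 * δ < |p.1 (i + 1) - p.1 i|) : hy i q = hy i p :=
  hy_const' p q (hpq.1 i hi.le) (hpq.1 (i + 1) hi) hp

theorem t_bdd (h1 : S_step) (h2 : S_drop) (h3 : S_far) (h4 : S_repl) : S_bdd := by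
  classical
  intro b T e w hP hG a hNN M
  set N := w.length with hN
  by_cases hN0 : N = 0
  · refine ⟨0, le_rfl, fun ε hε => ?_⟩
    obtain ⟨z, hz1, hz2, hz3⟩ := hNN M ε hε
    refine ⟨z, fun t ht => ?_, hz2, hz3⟩
    obtain ⟨ha, hb, hc⟩ := hz1 t ht
    exact ⟨ha, hb, fun p hp => ⟨hc p hp, fun i hi => by omega⟩⟩
  have hNpos : 0 < N := Nat.pos_of_ne_zero hN0
  obtain ⟨M0, hM0⟩ := h3 b T e w hP hG 3
  obtain ⟨τ, hτ⟩ := h1 b T e w hP hG
  have hτ' := hτ
  obtain ⟨hτ0, hOm, hmove, hdec, -, L, hL1, hLip⟩ := hτ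
  set M' := max M M0 with hM'
  obtain ⟨Y1, hY1, hdrop⟩ := h2 b T e w hP hG τ hτ' M'
  refine ⟨Y1 + 2, by linarith, fun ε hε => ?_⟩
  have hL0 : 0 < L := by linarith
  set ε' := min (ε / L) (1 / (4 * L)) with hε'
  have hε'0 : 0 < ε' := lt_min (by positivity) (by positivity)
  have hLε : L * ε' ≤ ε := by
    have : ε' ≤ ε / L := min_le_left _ _
    calc L * ε' ≤ L * (ε / L) := mul_le_mul_of_nonneg_left this hL0.le
      _ = ε := by field_simp
  have hLε2 : L * ε' ≤ 1 / 4 := by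
    have : ε' ≤ 1 / (4 * L) := min_le_right _ _
    calc L * ε' ≤ L * (1 / (4 * L)) := mul_le_mul_of_nonneg_left this hL0.le
      _ = 1 / 4 := by field_simp
  have hε'4 : ε' ≤ 1 / 4 := by nlinarith
  obtain ⟨z, hz1, hz2, hz3⟩ := hNN M' ε' hε'0
  rw [hw_length] at hz1
  set D := Dst τ b T w with hD
  set z' := mapc D z with hz'
  -- D decreases
  have hdec' : ∀ ζ, Om T N ζ → Sw b w (D ζ) ≤ Sw b w ζ := by
    intro ζ hζ
    have := hdec ζ hζ 0 (Nat.zero_le _)
    have h0 : 0 ≤ ((D ζ).1 0 - ζ.1 0) ^ 2 / (2 * τ) := by positivity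
    linarith
  -- properties of tuples of z'
  have hT : ∀ t ∈ z'.support, ∃ t0 ∈ z.support, t = t0.map D := fun t ht => mem_mapc D z t ht
  have hT1 : ∀ t ∈ z'.support, t.length = N + 1 := by
    intro t ht
    obtain ⟨t0, ht0, rfl⟩ := hT t ht
    rw [List.length_map]; exact (hz1 t0 ht0).1
  have hT2 : ∀ t ∈ z'.support, CloseT N (L * ε') t := by
    intro t ht p hp q hq
    obtain ⟨t0, ht0, rfl⟩ := hT t ht
    obtain ⟨p0, hp0, rfl⟩ := List.mem_map.1 hp
    obtain ⟨q0, hq0, rfl⟩ := List.mem_map.1 hq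
    exact hLip p0 q0 ε' hε'0.le ((hz1 t0 ht0).2.1 p0 hp0 q0 hq0)
  have hT3 : ∀ t ∈ z'.support, ∀ p ∈ t, Om T N p ∧ Sw b w p ≤ a := by
    intro t ht p hp
    obtain ⟨t0, ht0, rfl⟩ := hT t ht
    obtain ⟨p0, hp0, rfl⟩ := List.mem_map.1 hp
    obtain ⟨hO, hS⟩ := (hz1 t0 ht0).2.2 p0 hp0
    exact ⟨hOm p0, (hdec' p0 hO).trans hS⟩
  -- boundary of z'
  have hB : ∀ t ∈ (bd z').support, ∀ p ∈ t, Sw b w p ≤ -M' := by
    intro t ht p hp
    rw [hz', bd_mapc] at ht
    obtain ⟨t0, ht0, rfl⟩ := mem_mapc D _ t ht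
    obtain ⟨p0, hp0, rfl⟩ := List.mem_map.1 hp
    obtain ⟨t1, ht1, -, hsub⟩ := mem_bd z t0 ht0
    have hO := ((hz1 t1 ht1).2.2 p0 (hsub p0 hp0)).1
    exact (hdec' p0 hO).trans (hz2 t0 ht0 p0 hp0)
  -- pairing of z'
  have hpr : pr (ev (hw N)) z' = 1 := by
    rw [hz', pr_mapc]
    have hev : (fun t : List Cfg => ev (hw N) (t.map D)) =
        ev ((hw N).map (fun h p => h (D p))) := funext fun t => ev_map D (hw N) t
    rw [hev, ← hz3]
    symm
    refine h4 Cfg (hw N) _ z (by rw [List.length_map]) ?_ ?_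
    · intro t ht; rw [hw_length]; exact (hz1 t ht).1
    · intro t ht
      rw [hw_length]
      obtain ⟨t1, ht1, hlen, hsub⟩ := mem_bd z t ht
      have hlen1 := (hz1 t1 ht1).1
      have htne : t ≠ [] := by
        rintro rfl
        simp at hlen
        omega
      obtain ⟨p0, hp0⟩ := List.exists_mem_of_ne_nil t htne
      have hOp0 := ((hz1 t1 ht1).2.2 p0 (hsub p0 hp0)).1
      have hle : Sw b w p0 ≤ -M0 := by
        have := hz2 t ht p0 hp0
        have h' : M0 ≤ M' := le_max_right _ _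
        linarith
      obtain ⟨i, hi, hfar⟩ := hM0 p0 hOp0 hle
      refine ⟨i, hi, hy i p0, fun p hp => ?_⟩
      have hcl : Close N ε' p0 p := (hz1 t1 ht1).2.1 p0 (hsub p0 hp0) p (hsub p hp)
      have hOp := ((hz1 t1 ht1).2.2 p (hsub p hp)).1
      refine ⟨?_, ?_⟩
      · rw [hw_getD N i hi]
        exact hy_const hi p0 p hcl (by linarith)
      · rw [hw_map_getD N i hi]
        have m1 := abs_le.1 (hmove p hOp i hi.le)
        have m2 := abs_le.1 (hmove p hOp (i + 1) hi)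
        have c1 := abs_le.1 (hcl.1 i hi.le)
        have c2 := abs_le.1 (hcl.1 (i + 1) hi)
        refine hy_const' (δ := 1 / 2) p0 (D p) (abs_le.2 ⟨by linarith, by linarith⟩)
          (abs_le.2 ⟨by linarith, by linarith⟩) (by linarith)
  -- the splitting
  set z2 := z'.filter (fun t => ∃ p ∈ t, -M' < Sw b w p) with hz2def
  set z3 := z'.filter (fun t => ¬ ∃ p ∈ t, -M' < Sw b w p) with hz3def
  have hsplit : z2 + z3 = z' := Finsupp.filter_add_filter_not z' _
  have hs2 : ∀ t ∈ z2.support, t ∈ z'.support ∧ ∃ p ∈ t, -M' < Sw b w p := by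
    intro t ht
    rw [hz2def, Finsupp.support_filter, Finset.mem_filter] at ht
    exact ht
  have hs3 : ∀ t ∈ z3.support, t ∈ z'.support ∧ ∀ p ∈ t, Sw b w p ≤ -M' := by
    intro t ht
    rw [hz3def, Finsupp.support_filter, Finset.mem_filter] at ht
    refine ⟨ht.1, fun p hp => ?_⟩
    by_contra hlt
    exact ht.2 ⟨p, hp, not_le.1 hlt⟩
  have hpr3 : pr (ev (hw N)) z3 = 0 := by
    apply pr_zero
    intro t ht
    obtain ⟨ht', hlow⟩ := hs3 t ht
    have hlen := hT1 t ht'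
    have htne : t ≠ [] := by
      rintro rfl
      simp at hlen
    obtain ⟨p0, hp0⟩ := List.exists_mem_of_ne_nil t htne
    have hOp0 := (hT3 t ht' p0 hp0).1
    have hle : Sw b w p0 ≤ -M0 := by
      have := hlow p0 hp0
      have h' : M0 ≤ M' := le_max_right _ _
      linarith
    obtain ⟨i, hi, hfar⟩ := hM0 p0 hOp0 hle
    refine ev_const (hw N) t i (hy i p0) (by rw [hw_length]; exact hi) fun p hp => ?_
    rw [hw_getD N i hi]
    exact hy_const hi p0 p (hT2 t ht' p0 hp0 p hp) (by linarith)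
  have hpr2 : pr (ev (hw N)) z2 = 1 := by
    have := congrArg (pr (ev (hw N))) hsplit
    rw [map_add, hpr3, add_zero, hpr] at this
    exact this
  have hbd2 : bd z2 = bd z' - bd z3 := by
    rw [← hsplit, map_add, add_sub_cancel_right]
  refine ⟨z2, ?_, ?_, hpr2⟩
  · intro t ht
    obtain ⟨ht', p, hp, hSp⟩ := hs2 t ht
    refine ⟨by rw [hw_length]; exact hT1 t ht', ?_, ?_⟩
    · intro x hx y hy
      exact Close.mono (hT2 t ht' x hx y hy) hLε
    intro q hq
    refine ⟨hT3 t ht' q hq, fun i hi => ?_⟩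
    obtain ⟨t0, ht0, rfl⟩ := hT t ht'
    obtain ⟨p0, hp0, rfl⟩ := List.mem_map.1 hp
    obtain ⟨q0, hq0, rfl⟩ := List.mem_map.1 hq
    have hOp0 := ((hz1 t0 ht0).2.2 p0 hp0).1
    have hOq0 := ((hz1 t0 ht0).2.2 q0 hq0).1
    have hlt : |p0.1 (i + 1) - p0.1 i| < Y1 := by
      by_contra hge
      have := hdrop p0 hOp0 ⟨i, hi, not_lt.1 hge⟩
      linarith
    have hcl : Close N ε' p0 q0 := (hz1 t0 ht0).2.1 p0 hp0 q0 hq0
    have m1 := abs_le.1 (hmove q0 hOq0 i hi.le)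
    have m2 := abs_le.1 (hmove q0 hOq0 (i + 1) hi)
    have c1 := abs_le.1 (hcl.1 i hi.le)
    have c2 := abs_le.1 (hcl.1 (i + 1) hi)
    have l1 := abs_lt.1 hlt
    exact abs_le.2 ⟨by linarith, by linarith⟩
  · intro t ht p hp
    have hMM : M ≤ M' := le_max_left _ _
    rw [hbd2] at ht
    rcases Finset.mem_union.1 (Finsupp.support_sub ht) with h | h
    · have := hB t h p hp
      linarith
    · obtain ⟨t1, ht1, -, hsub⟩ := mem_bd z3 t h
      have := (hs3 t1 ht1).2 p (hsub p hp)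
      linarith

end Pool.Agent.W918.DP
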