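import Pool.Agent.W710.DP.Stm1

/-! Basic facts about chains of tuples mod 2 (project DP). -/

set_option autoImplicit false

namespace Pool.Agent.W918.DP

open Pool.Agent.W710.DP Finsupp

variable {Z Y : Type}

theorem mem_bdL : ∀ (t u : List Z), u ∈ (bdL t).support →
    u.length + 1 = t.length ∧ ∀ p ∈ u, p ∈ t
  | [], u, hu => by simp [bdL] at hu
  | x :: t, u, hu => by
    classical
    rw [bdL] at hu
    rcases Finset.mem_union.1 (Finsupp.support_add hu) with h | h
    · have hut : u = t := by
        have := Finsupp.support_single_subset h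
        simpa using this
      subst hut
      exact ⟨by simp, fun p hp => List.mem_cons_of_mem _ hp⟩
    · have := Finsupp.mapDomain_support h
      obtain ⟨v, hv, rfl⟩ := Finset.mem_image.1 this
      obtain ⟨h1, h2⟩ := mem_bdL t v hv
      refine ⟨by simpa using h1, fun p hp => ?_⟩
      rcases List.mem_cons.1 hp with rfl | hp
      · exact List.mem_cons_self
      · exact List.mem_cons_of_mem _ (h2 p hp)

theorem mem_bd (z : List Z →₀ ZMod 2) (u : List Z) (hu : u ∈ (bd z).support) :
    ∃ t ∈ z.support, u.length + 1 = t.length ∧ ∀ p ∈ u, p ∈ t := by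
  classical
  rw [bd, Finsupp.linearCombination_apply] at hu
  obtain ⟨t, ht, htu⟩ := Finset.mem_biUnion.1 (Finsupp.support_sum hu)
  refine ⟨t, ht, ?_⟩
  exact mem_bdL t u (Finsupp.support_smul htu)

theorem bdL_map (f : Z → Y) : ∀ t : List Z, bdL (t.map f) = (bdL t).mapDomain (List.map f)
  | [] => by simp [bdL]
  | x :: t => by
    rw [List.map_cons, bdL, bdL, Finsupp.mapDomain_add, Finsupp.mapDomain_single, bdL_map f t,
      ← Finsupp.mapDomain_comp, ← Finsupp.mapDomain_comp]
    rfl

theorem bd_mapc (f : Z → Y) (z : List Z →₀ ZMod 2) : bd (mapc f z) = mapc f (bd z) := by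
  unfold mapc bd
  rw [Finsupp.linearCombination_mapDomain]
  rw [Finsupp.linearCombination_apply, Finsupp.linearCombination_apply]
  rw [Finsupp.sum, Finsupp.sum, Finsupp.mapDomain_finsetSum]
  refine Finset.sum_congr rfl fun t _ => ?_
  rw [Function.comp_apply, bdL_map, Finsupp.mapDomain_smul]

theorem pr_mapc (f : Z → Y) (A : List Y → ZMod 2) (z : List Z →₀ ZMod 2) :
    pr A (mapc f z) = pr (fun t => A (t.map f)) z := by
  unfold pr mapc
  rw [Finsupp.linearCombination_mapDomain]
  rfl

theorem ev_map (f : Z → Y) : ∀ (hs : List (Y → ZMod 2)) (t : List Z),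
    ev hs (t.map f) = ev (hs.map (fun h p => h (f p))) t
  | [], t => by simp [ev]
  | h :: hs, [] => by simp [ev]
  | h :: hs, [x] => by simp [ev]
  | h :: hs, x :: y :: t => by
    have := ev_map f hs (y :: t)
    rw [List.map_cons] at this
    simp only [List.map_cons, ev]
    rw [this]

theorem ev_const : ∀ (hs : List (Z → ZMod 2)) (t : List Z) (i : ℕ) (c : ZMod 2),
    i < hs.length → (∀ p ∈ t, hs.getD i 0 p = c) → ev hs t = 0
  | [], t, i, c, hi, _ => by simp at hi
  | h :: hs, [], i, c, hi, _ => by simp [ev]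
  | h :: hs, [x], i, c, hi, _ => by simp [ev]
  | h :: hs, x :: y :: t, 0, c, hi, hc => by
    have h1 := hc x (by simp)
    have h2 := hc y (by simp)
    simp only [List.getD_cons_zero] at h1 h2
    simp only [ev, h1, h2]
    rw [CharTwo.add_self_eq_zero, zero_mul]
  | h :: hs, x :: y :: t, i + 1, c, hi, hc => by
    simp only [ev]
    rw [ev_const hs (y :: t) i c (by simpa using hi), mul_zero]
    intro p hp
    have := hc p (List.mem_cons_of_mem _ hp)
    simpa using this

theorem pr_zero (A : List Z → ZMod 2) (z : List Z →₀ ZMod 2) (h : ∀ t ∈ z.support, A t = 0) :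
    pr A z = 0 := by
  unfold pr
  rw [Finsupp.linearCombination_apply, Finsupp.sum]
  exact Finset.sum_eq_zero fun t ht => by rw [h t ht, smul_zero]

theorem pr_congr (A B : List Z → ZMod 2) (z : List Z →₀ ZMod 2) (h : ∀ t ∈ z.support, A t = B t) :
    pr A z = pr B z := by
  unfold pr
  rw [Finsupp.linearCombination_apply, Finsupp.linearCombination_apply, Finsupp.sum, Finsupp.sum]
  exact Finset.sum_congr rfl fun t ht => by rw [h t ht]

theorem mem_mapc (f : Z → Y) (z : List Z →₀ ZMod 2) (u : List Y) (hu : u ∈ (mapc f z).support) :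
    ∃ t ∈ z.support, u = t.map f := by
  classical
  have := Finsupp.mapDomain_support hu
  obtain ⟨t, ht, rfl⟩ := Finset.mem_image.1 this
  exact ⟨t, ht, rfl⟩

end Pool.Agent.W918.DP
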